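import Pool.Agent.Lib.MP_47914d_nt.BD.HOM2
import Pool.Agent.Lib.MP_47914d_nt.BD.All
import Pool.Agent.Lib.MP_f11a48_ag.CG.MainJ0
import Mathlib.Algebra.DualNumber

/-!
# From relations between the `3 n + 1` numbers to relations between period matrices: derivatives
-/

set_option autoImplicit false

namespace Pool.Agent.Lib.MP_47914d_nt.BE

open Matrix TrivSqZeroExt
open Pool.Agent.Lib.MPf11a48.CG Pool.Agent.Lib.MPf11a48.CG.MainJM
open Pool.Agent.Lib.MPf11a48.GL2 (lie)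
open Pool.Agent.Lib.MP_47914d_nt.BD Pool.Agent.Lib.MP_47914d_nt.BD.HOM2M

/-! ### the Lie algebra of `SL₂` -/

open SLMM in
theorem mem_lie_of_sq {Z : Matrix (Fin 2) (Fin 2) ℂ} (ht : Z.trace = 0) (hd : Z.det = 0) :
    Z ∈ lie (SL : Set (GL (Fin 2) ℂ)) := by
  intro f hf p hp
  have hf1 : f.1.det = 1 := hf
  have h0 : lin f.1 (Z * f.1) p = 0 := by
    refine Polynomial.funext fun s => ?_
    rw [eval_lin, Polynomial.eval_zero]
    have h1 : f.1 + s • (Z * f.1) = (1 + s • Z) * f.1 := by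
      rw [Matrix.add_mul, Matrix.one_mul, Matrix.smul_mul]
    have h2 : ((1 + s • Z) * f.1).det = 1 := by
      rw [Matrix.det_mul, uni_det _ ht hd, hf1, one_mul]
    rw [h1]
    exact hp (Matrix.GeneralLinearGroup.mkOfDetNeZero ((1 + s • Z) * f.1)
      (by rw [h2]; exact one_ne_zero)) h2
  rw [← deriv_lin, h0, Polynomial.derivative_zero, Polynomial.eval_zero]

theorem mem_lie {Z : Matrix (Fin 2) (Fin 2) ℂ} (ht : Z.trace = 0) :
    Z ∈ lie (SL : Set (GL (Fin 2) ℂ)) := by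
  have e : Z = Z 0 0 • !![1, -1; 1, -1] + (Z 0 1 + Z 0 0) • !![0, 1; 0, 0] +
      (Z 1 0 - Z 0 0) • !![0, 0; 1, 0] := by
    rw [Matrix.trace_fin_two] at ht
    ext i j
    fin_cases i <;> fin_cases j <;> simp
    linear_combination ht
  rw [e]
  refine Submodule.add_mem _ (Submodule.add_mem _ ?_ ?_) ?_
  · exact Submodule.smul_mem _ _ (mem_lie_of_sq (by simp [Matrix.trace_fin_two])
      (by simp [Matrix.det_fin_two]))
  · exact Submodule.smul_mem _ _ (mem_lie_of_sq (by simp [Matrix.trace_fin_two])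
      (by simp [Matrix.det_fin_two]))
  · exact Submodule.smul_mem _ _ (mem_lie_of_sq (by simp [Matrix.trace_fin_two])
      (by simp [Matrix.det_fin_two]))

/-! ### dual numbers -/

theorem aeval_dual {I : Type} [Fintype I] {K : IntermediateField ℚ ℂ} (P : MvPolynomial I K)
    (f v : I → ℂ) :
    MvPolynomial.aeval (fun i => (inl (f i) + inr (v i) : TrivSqZeroExt ℂ ℂ)) P =
      inl (MvPolynomial.aeval f P) + inr (dv P f v) := by
  classical
  induction P using MvPolynomial.induction_on with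
  | C a =>
    rw [MvPolynomial.aeval_C, MvPolynomial.aeval_C, dv_C, inr_zero, add_zero]
    rfl
  | add p q hp hq =>
    rw [map_add, map_add, dv_add, hp, hq, inl_add, inr_add]
    abel
  | mul_X p i hp =>
    rw [map_mul, map_mul, MvPolynomial.aeval_X, MvPolynomial.aeval_X, hp, dv_mul, dv_X,
      MvPolynomial.aeval_X]
    ext
    · simp
    · simp
      ring

/-! ### the polynomials -/

variable {n : ℕ} {K : IntermediateField ℚ ℂ}

/-- block of variables -/
noncomputable def xc (K : IntermediateField ℚ ℂ) (i : Fin n) :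
    Matrix (Fin 2) (Fin 2) (MvPolynomial (Fin n × Fin 2 × Fin 2) K) :=
  fun a b => MvPolynomial.X (i, a, b)

theorem int_D (z : ℤ) : ((z : ℤ) : MvPolynomial (Fin n × Fin 2 × Fin 2) K) =
    MvPolynomial.C (z : K) := by
  rw [map_intCast]

theorem deg_lind (a b : ℤ) (u v : Fin n × Fin 2 × Fin 2) :
    ((a : MvPolynomial (Fin n × Fin 2 × Fin 2) K) * MvPolynomial.X u +
      (b : MvPolynomial (Fin n × Fin 2 × Fin 2) K) * MvPolynomial.X v).totalDegree ≤ 1 := by
  rw [int_D, int_D]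
  refine (MvPolynomial.totalDegree_add _ _).trans (max_le ?_ ?_) <;>
  · refine (MvPolynomial.totalDegree_mul _ _).trans ?_
    rw [MvPolynomial.totalDegree_C, MvPolynomial.totalDegree_X]

theorem deg_lc (A : Matrix (Fin 2) (Fin 2) ℤ) (i : Fin n) (j : Fin 4) :
    (lc A (xc K i) j).totalDegree ≤ 1 := by
  fin_cases j
  · exact deg_lind _ _ _ _
  · exact deg_lind _ _ _ _
  · exact deg_lind _ _ _ _
  · exact deg_lind _ _ _ _

/-- determinant of the block -/
noncomputable def dt (K : IntermediateField ℚ ℂ) (i : Fin n) :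
    MvPolynomial (Fin n × Fin 2 × Fin 2) K := (xc K i).det

theorem deg_dt (i : Fin n) : (dt K i).totalDegree ≤ 2 := by
  unfold dt
  rw [Matrix.det_fin_two]
  refine (MvPolynomial.totalDegree_sub _ _).trans (max_le ?_ ?_) <;>
  · refine (MvPolynomial.totalDegree_mul _ _).trans ?_
    simp [xc]

/-- `- t V²` -/
noncomputable def p1 (A : Matrix (Fin 2) (Fin 2) ℤ) (t : ℚ) (i : Fin n) :
    MvPolynomial (Fin n × Fin 2 × Fin 2) K :=
  -(MvPolynomial.C (t : K) * lc A (xc K i) 0 ^ 2)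

/-- `t (l V⁴ - 2 V³ V')` -/
noncomputable def p2 (A : Matrix (Fin 2) (Fin 2) ℤ) (t l : ℚ) (i : Fin n) :
    MvPolynomial (Fin n × Fin 2 × Fin 2) K :=
  MvPolynomial.C (t : K) * (MvPolynomial.C (l : K) * lc A (xc K i) 0 ^ 4 -
    2 * (lc A (xc K i) 0 ^ 3 * lc A (xc K i) 1))

theorem deg_p1 (A : Matrix (Fin 2) (Fin 2) ℤ) (t : ℚ) (i : Fin n) :
    (p1 (K := K) A t i).totalDegree ≤ 2 := by
  unfold p1
  rw [MvPolynomial.totalDegree_neg]
  refine (MvPolynomial.totalDegree_mul _ _).trans ?_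
  rw [MvPolynomial.totalDegree_C, zero_add]
  refine (MvPolynomial.totalDegree_pow _ _).trans ?_
  have := deg_lc (K := K) A i 0
  omega

theorem deg_p2 (A : Matrix (Fin 2) (Fin 2) ℤ) (t l : ℚ) (i : Fin n) :
    (p2 (K := K) A t l i).totalDegree ≤ 4 := by
  unfold p2
  refine (MvPolynomial.totalDegree_mul _ _).trans ?_
  rw [MvPolynomial.totalDegree_C, zero_add]
  refine (MvPolynomial.totalDegree_sub _ _).trans (max_le ?_ ?_)
  · refine (MvPolynomial.totalDegree_mul _ _).trans ?_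
    rw [MvPolynomial.totalDegree_C, zero_add]
    refine (MvPolynomial.totalDegree_pow _ _).trans ?_
    have := deg_lc (K := K) A i 0
    omega
  · have e : (2 : MvPolynomial (Fin n × Fin 2 × Fin 2) K) = MvPolynomial.C (2 : K) := by
      rw [map_ofNat]
    rw [e]
    refine (MvPolynomial.totalDegree_mul _ _).trans ?_
    rw [MvPolynomial.totalDegree_C, zero_add]
    refine (MvPolynomial.totalDegree_mul _ _).trans ?_
    have h1 := MvPolynomial.totalDegree_pow (lc A (xc K i) 0) 3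
    have h2 := deg_lc (K := K) A i 0
    have h3 := deg_lc (K := K) A i 1
    omega

/-- the factor of block `i` -/
noncomputable def tm (A : Matrix (Fin 2) (Fin 2) ℤ) (t l : ℚ) (D : ℕ) (e : Fin 3 → ℕ)
    (i : Fin n) : MvPolynomial (Fin n × Fin 2 × Fin 2) K :=
  lc A (xc K i) 2 ^ e 0 * lc A (xc K i) 0 ^ (D - e 0) *
    (p1 A t i ^ e 1 * dt K i ^ (D - e 1)) * (p2 A t l i ^ e 2 * (dt K i ^ 2) ^ (D - e 2))

theorem deg_tm (A : Matrix (Fin 2) (Fin 2) ℤ) (t l : ℚ) (D : ℕ) (e : Fin 3 → ℕ) (i : Fin n)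
    (he : ∀ j, e j ≤ D) : (tm (K := K) A t l D e i).totalDegree ≤ 7 * D := by
  unfold tm
  refine (MvPolynomial.totalDegree_mul _ _).trans ?_
  have h1 := MvPolynomial.totalDegree_mul (lc A (xc K i) 2 ^ e 0 * lc A (xc K i) 0 ^ (D - e 0))
    (p1 A t i ^ e 1 * dt K i ^ (D - e 1))
  have h2 := deg_pow_mul (deg_lc (K := K) A i 2) (deg_lc (K := K) A i 0) (he 0)
  have h3 := deg_pow_mul (deg_p1 (K := K) A t i) (deg_dt (K := K) i) (he 1)
  have h4 : (dt K i ^ 2).totalDegree ≤ 4 := by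
    refine (MvPolynomial.totalDegree_pow _ _).trans ?_
    have := deg_dt (K := K) i
    omega
  have h5 := deg_pow_mul (deg_p2 (K := K) A t l i) h4 (he 2)
  omega

/-- the polynomial `Q` -/
noncomputable def QQ (P : MvPolynomial (Option (Fin n × Fin 3)) K)
    (A : Fin n → Matrix (Fin 2) (Fin 2) ℤ) (t l : Fin n → ℚ) (D : ℕ) (i0 : Fin n) :
    MvPolynomial (Fin n × Fin 2 × Fin 2) K :=
  ∑ e ∈ P.support, MvPolynomial.C (P.coeff e) * dt K i0 ^ (e none) *
    ∏ i, tm (A i) (t i) (l i) D (fun j => e (some (i, j))) i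

theorem deg_QQ {P : MvPolynomial (Option (Fin n × Fin 3)) K} {D : ℕ} (hP : P.totalDegree ≤ D)
    (A : Fin n → Matrix (Fin 2) (Fin 2) ℤ) (t l : Fin n → ℚ) (i0 : Fin n) :
    (QQ P A t l D i0).totalDegree ≤ 9 * n * D := by
  have hn : 0 < n := lt_of_le_of_lt (Nat.zero_le _) i0.isLt
  refine MvPolynomial.totalDegree_finsetSum_le ?_
  intro e hes
  refine (MvPolynomial.totalDegree_mul _ _).trans ?_
  have h1 : (MvPolynomial.C (P.coeff e) * dt K i0 ^ (e none)).totalDegree ≤ 2 * D := by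
    refine (MvPolynomial.totalDegree_mul _ _).trans ?_
    rw [MvPolynomial.totalDegree_C, zero_add]
    refine (MvPolynomial.totalDegree_pow _ _).trans ?_
    calc e none * (dt K i0).totalDegree ≤ D * 2 :=
          Nat.mul_le_mul (e_le hP hes none) (deg_dt (K := K) i0)
      _ = 2 * D := mul_comm _ _
  have h2 : (∏ i, tm (K := K) (A i) (t i) (l i) D (fun j => e (some (i, j))) i).totalDegree ≤
      n * (7 * D) := by
    refine (MvPolynomial.totalDegree_finsetProd _ _).trans ?_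
    calc ∑ i, (tm (K := K) (A i) (t i) (l i) D (fun j => e (some (i, j))) i).totalDegree ≤
          ∑ _i : Fin n, 7 * D :=
          Finset.sum_le_sum fun i _ => deg_tm _ _ _ _ _ _ fun j => e_le hP hes _
      _ = n * (7 * D) := by simp
  have h3 : 2 * D ≤ n * (2 * D) := Nat.le_mul_of_pos_left _ hn
  calc _ ≤ n * (2 * D) + n * (7 * D) := by omega
    _ = 9 * n * D := by ring

section

variable {S : Type} [CommRing S] [Algebra K S]

/-- evaluation at block diagonal matrices -/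
noncomputable def ev (K : IntermediateField ℚ ℂ) [Algebra K S]
    (N : Fin n → Matrix (Fin 2) (Fin 2) S) :
    MvPolynomial (Fin n × Fin 2 × Fin 2) K →ₐ[K] S :=
  MvPolynomial.aeval (fun v : Fin n × Fin 2 × Fin 2 => N v.1 v.2.1 v.2.2)

theorem ev_xc (N : Fin n → Matrix (Fin 2) (Fin 2) S) (i : Fin n) :
    (xc K i).map (ev K N).toRingHom = N i := by
  ext a b
  simp [xc, ev]

theorem ev_lc (A : Matrix (Fin 2) (Fin 2) ℤ) (N : Fin n → Matrix (Fin 2) (Fin 2) S) (i : Fin n)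
    (j : Fin 4) : ev K N (lc A (xc K i) j) = lc A (N i) j := by
  have h := map_lc (ev K N).toRingHom A (xc K i) j
  rw [ev_xc] at h
  exact h

theorem ev_dt (N : Fin n → Matrix (Fin 2) (Fin 2) S) (i : Fin n) :
    ev K N (dt K i) = (N i).det := by
  have h := RingHom.map_det (ev K N).toRingHom (xc K i)
  have h2 : (ev K N).toRingHom.mapMatrix (xc K i) = N i := ev_xc N i
  rw [h2] at h
  exact h

theorem ev_C (N : Fin n → Matrix (Fin 2) (Fin 2) S) (c : K) :
    ev K N (MvPolynomial.C c) = algebraMap K S c := by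
  unfold ev
  rw [MvPolynomial.aeval_C]

theorem ev_p1 (A : Matrix (Fin 2) (Fin 2) ℤ) (t : ℚ) (N : Fin n → Matrix (Fin 2) (Fin 2) S)
    (i : Fin n) : ev K N (p1 A t i) = -(algebraMap K S t * lc A (N i) 0 ^ 2) := by
  unfold p1
  rw [map_neg, map_mul, map_pow, ev_lc, ev_C]

theorem ev_p2 (A : Matrix (Fin 2) (Fin 2) ℤ) (t l : ℚ) (N : Fin n → Matrix (Fin 2) (Fin 2) S)
    (i : Fin n) : ev K N (p2 A t l i) = algebraMap K S t * (algebraMap K S l * lc A (N i) 0 ^ 4 -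
      2 * (lc A (N i) 0 ^ 3 * lc A (N i) 1)) := by
  unfold p2
  rw [map_mul, map_sub, map_mul, map_mul, map_mul, map_pow, map_pow, ev_lc, ev_lc, ev_C, ev_C,
    map_ofNat]

theorem pws {τ x y : S} {D p : ℕ} (hp : p ≤ D) (h : x = y * τ) :
    x ^ p * τ ^ (D - p) = y ^ p * τ ^ D := by
  rw [h, mul_pow, mul_assoc, ← pow_add, Nat.add_sub_cancel' hp]

theorem ev_QQ {P : MvPolynomial (Option (Fin n × Fin 3)) K} {D : ℕ} (hP : P.totalDegree ≤ D)
    (A : Fin n → Matrix (Fin 2) (Fin 2) ℤ) (t l : Fin n → ℚ) (i0 : Fin n)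
    (N : Fin n → Matrix (Fin 2) (Fin 2) S) (w : Fin n → Fin 3 → S) (T : S)
    (hN : ∀ i, (N i).det = T)
    (h0 : ∀ i, w i 0 * lc (A i) (N i) 0 = lc (A i) (N i) 2)
    (h1 : ∀ i, w i 1 * T = -(algebraMap K S (t i) * lc (A i) (N i) 0 ^ 2))
    (h2 : ∀ i, w i 2 * T ^ 2 = algebraMap K S (t i) *
      (algebraMap K S (l i) * lc (A i) (N i) 0 ^ 4 -
      2 * (lc (A i) (N i) 0 ^ 3 * lc (A i) (N i) 1))) :
    ev K N (QQ P A t l D i0) = (∏ i, (lc (A i) (N i) 0 ^ D * T ^ D * (T ^ 2) ^ D)) *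
      MvPolynomial.aeval (fun o : Option (Fin n × Fin 3) => o.elim T fun v => w v.1 v.2) P := by
  have hPe : MvPolynomial.aeval (fun o : Option (Fin n × Fin 3) =>
      o.elim T fun v => w v.1 v.2) P = ∑ e ∈ P.support, algebraMap K S (P.coeff e) *
        (T ^ e none * ∏ i, ∏ j, w i j ^ e (some (i, j))) := by
    rw [MvPolynomial.aeval_def, MvPolynomial.eval₂_eq']
    refine Finset.sum_congr rfl fun e _ => ?_
    rw [Fintype.prod_option, Fintype.prod_prod_type]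
    rfl
  rw [hPe]
  unfold QQ
  rw [map_sum, Finset.mul_sum]
  refine Finset.sum_congr rfl fun e hes => ?_
  rw [map_mul, map_mul, map_pow, map_prod, ev_C, ev_dt, hN]
  have h3 : ∀ i, ev K N (tm (A i) (t i) (l i) D (fun j => e (some (i, j))) i) =
      (lc (A i) (N i) 0 ^ D * T ^ D * (T ^ 2) ^ D) * ∏ j, w i j ^ e (some (i, j)) := by
    intro i
    unfold tm
    simp only [map_mul, map_pow, ev_lc, ev_dt, ev_p1, ev_p2, hN]
    rw [pws (e_le hP hes (some (i, 0))) (h0 i).symm,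
      pws (e_le hP hes (some (i, 1))) (h1 i).symm,
      pws (e_le hP hes (some (i, 2))) (h2 i).symm, Fin.prod_univ_three]
    ring
  rw [Finset.prod_congr rfl fun i _ => h3 i, Finset.prod_mul_distrib]
  ring

end

/-- the entries of a matrix of dual numbers -/
theorem lc_dual (A : Matrix (Fin 2) (Fin 2) ℤ) (M M' : Matrix (Fin 2) (Fin 2) ℂ) (j : Fin 4) :
    lc A (Matrix.of fun a b => (inl (M a b) + inr (M' a b) : TrivSqZeroExt ℂ ℂ)) j =
      inl (lc A M j) + inr (lc A M' j) := by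
  have hi : ∀ z : ℤ, ((z : ℤ) : TrivSqZeroExt ℂ ℂ) = inl (z : ℂ) := fun z => by
    rw [← map_intCast (inlHom ℂ ℂ) z]
    rfl
  fin_cases j <;>
  · simp only [lc, hi, Matrix.of_apply]
    ext <;> simp

/-- the direction of the matrices which gives the direction `v` of the `3 n` numbers -/
theorem exists_dir (A : Matrix (Fin 2) (Fin 2) ℤ) (hA : A.det = 1) (t l : ℚ) (ht : t ≠ 0)
    (M : Matrix (Fin 2) (Fin 2) ℂ) (hM : M.det = tau) (w v : Fin 3 → ℂ)
    (hV : lc A M 0 ≠ 0) :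
    ∃ Z : Matrix (Fin 2) (Fin 2) ℂ, Z.trace = 0 ∧
      ((M 0 0 * (Z * M) 1 1 + (Z * M) 0 0 * M 1 1) -
        (M 0 1 * (Z * M) 1 0 + (Z * M) 0 1 * M 1 0) = 0) ∧
      v 0 * lc A M 0 + w 0 * lc A (Z * M) 0 = lc A (Z * M) 2 ∧
      v 1 * tau = -(t * (2 * lc A M 0 * lc A (Z * M) 0)) ∧
      v 2 * tau ^ 2 = t * (l * (4 * lc A M 0 ^ 3 * lc A (Z * M) 0) -
        2 * (3 * lc A M 0 ^ 2 * lc A (Z * M) 0 * lc A M 1 +
          lc A M 0 ^ 3 * lc A (Z * M) 1)) := by
  have hd : (A 0 0 : ℂ) * A 1 1 - A 0 1 * A 1 0 = 1 := by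
    rw [Matrix.det_fin_two] at hA
    exact_mod_cast hA
  have htc : (t : ℂ) ≠ 0 := by exact_mod_cast ht
  -- the determinant
  have hdet : lc A M 0 * lc A M 3 - lc A M 1 * lc A M 2 = tau := by
    rw [Matrix.det_fin_two] at hM
    rw [← hM]
    show ((A 1 0 : ℂ) * M 1 0 + (A 1 1 : ℂ) * M 0 0) * ((A 0 0 : ℂ) * M 1 1 + (A 0 1 : ℂ) * M 0 1) -
      ((A 1 0 : ℂ) * M 1 1 + (A 1 1 : ℂ) * M 0 1) * ((A 0 0 : ℂ) * M 1 0 + (A 0 1 : ℂ) * M 0 0) = _
    linear_combination (M 0 0 * M 1 1 - M 0 1 * M 1 0) * hd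
  set V := lc A M 0 with hVd
  set W := lc A M 1 with hWd
  set U := lc A M 2 with hUd
  set X := lc A M 3 with hXd
  obtain ⟨V', hV'⟩ : ∃ V' : ℂ, v 1 * tau = -(t * (2 * V * V')) :=
    ⟨-(v 1 * tau) / (2 * t * V), by field_simp⟩
  obtain ⟨W', hW'⟩ : ∃ W' : ℂ, v 2 * tau ^ 2 = t * (l * (4 * V ^ 3 * V') -
      2 * (3 * V ^ 2 * V' * W + V ^ 3 * W')) :=
    ⟨(4 * l * V ^ 3 * V' - 6 * V ^ 2 * V' * W - v 2 * tau ^ 2 / t) / (2 * V ^ 3), by
      field_simp
      ring⟩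
  set U' := v 0 * V + w 0 * V' with hU'
  obtain ⟨X', hX'⟩ : ∃ X' : ℂ, V * X' + V' * X - (W * U' + W' * U) = 0 :=
    ⟨(W * U' + W' * U - V' * X) / V, by field_simp; ring⟩
  let M' : Matrix (Fin 2) (Fin 2) ℂ :=
    !![(A 0 0 : ℂ) * V' - A 1 0 * U', A 0 0 * W' - A 1 0 * X';
      -(A 0 1 : ℂ) * V' + A 1 1 * U', -(A 0 1 : ℂ) * W' + A 1 1 * X']
  have e0 : lc A M' 0 = V' := by
    simp [lc, M']
    linear_combination V' * hd
  have e1 : lc A M' 1 = W' := by
    simp [lc, M']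
    linear_combination W' * hd
  have e2 : lc A M' 2 = U' := by
    simp [lc, M']
    linear_combination U' * hd
  have hMM : (M 0 0 * M' 1 1 + M' 0 0 * M 1 1) - (M 0 1 * M' 1 0 + M' 0 1 * M 1 0) = 0 := by
    rw [← hX']
    simp only [M', Matrix.of_apply, Matrix.cons_val', Matrix.cons_val_zero, Matrix.cons_val_one,
      Matrix.cons_val_fin_one]
    rw [hVd, hWd, hUd, hXd]
    show _ = ((A 1 0 : ℂ) * M 1 0 + (A 1 1 : ℂ) * M 0 0) * X' +
      V' * ((A 0 0 : ℂ) * M 1 1 + (A 0 1 : ℂ) * M 0 1) -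
      (((A 1 0 : ℂ) * M 1 1 + (A 1 1 : ℂ) * M 0 1) * U' +
        W' * ((A 0 0 : ℂ) * M 1 0 + (A 0 1 : ℂ) * M 0 0))
    ring
  have hZM : tau⁻¹ • (M' * M.adjugate) * M = M' := by
    rw [Matrix.smul_mul, Matrix.mul_assoc, Matrix.adjugate_mul, hM, Matrix.mul_smul,
      Matrix.mul_one, smul_smul, inv_mul_cancel₀ tau_ne, one_smul]
  refine ⟨tau⁻¹ • (M' * M.adjugate), ?_, ?_, ?_, ?_, ?_⟩
  · rw [Matrix.trace_smul]
    have : (M' * M.adjugate).trace = 0 := by
      rw [Matrix.adjugate_fin_two, Matrix.trace_fin_two, ← hMM]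
      simp only [Matrix.mul_apply, Fin.sum_univ_two, Matrix.of_apply, Matrix.cons_val',
        Matrix.cons_val_zero, Matrix.cons_val_one, Matrix.cons_val_fin_one]
      ring
    rw [this, smul_zero]
  · rw [hZM]
    exact hMM
  · rw [hZM, e0, e2]
  · rw [hZM, e0]
    exact hV'
  · rw [hZM, e0, e1]
    exact hW'

end Pool.Agent.Lib.MP_47914d_nt.BE
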