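import Pool.Agent.Lib.MP_f11a48_ag.BD.Lin
import Pool.Agent.Lib.MP_f11a48_ag.CG.MainJ0
import Pool.Agent.Lib.MP_47914d_nt.BE.Hom

section
/-!
# From determinants of derivatives to numbers without relations of bounded degree
-/
set_option autoImplicit false

namespace Pool.Agent.Lib.MP_47914d_nt.BE

open Pool.Agent.Lib.MPf11a48.CG Pool.Agent.Lib.MPf11a48.CG.MainJM
open Pool.Agent.Lib.MPf11a48.BD

section

variable {J : Type} [Fintype J] {k : Type} [Field k] [Algebra k ℂ]

theorem dv_add_right (F : MvPolynomial J k) (c v w : J → ℂ) :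
    dv F c (fun i => v i + w i) = dv F c v + dv F c w := by
  unfold dv
  rw [← Finset.sum_add_distrib]
  exact Finset.sum_congr rfl fun i _ => mul_add _ _ _

theorem dv_smul_right (F : MvPolynomial J k) (c v : J → ℂ) (t : ℂ) :
    dv F c (fun i => t * v i) = t * dv F c v := by
  unfold dv
  rw [Finset.mul_sum]
  exact Finset.sum_congr rfl fun i _ => by ring

/-- the derivative in the directions of `J` -/
noncomputable def fj (c : Option J → ℂ) (F : MvPolynomial (Option J) k) : (J → ℂ) →ₗ[ℂ] ℂ where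
  toFun v := dv F c fun o => o.elim 0 v
  map_add' v w := by
    rw [← dv_add_right]
    congr 1
    funext o
    cases o with
    | none => simp
    | some j => simp
  map_smul' t v := by
    rw [RingHom.id_apply, smul_eq_mul, ← dv_smul_right]
    congr 1
    funext o
    cases o with
    | none => simp
    | some j => simp

theorem fj_apply (c : Option J → ℂ) (F : MvPolynomial (Option J) k) (v : J → ℂ) :
    fj c F v = dv F c fun o => o.elim 0 v := rfl

/-- From determinants of derivatives to numbers without relations of degree `≤ D`. -/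
theorem exists_B [DecidableEq J] (c : Option J → ℂ) (D q : ℕ)
    (h1 : ∀ (F : Fin (q + 1) → MvPolynomial (Option J) k) (v : Fin (q + 1) → J → ℂ),
      (∀ i, (F i).totalDegree ≤ D) → (∀ i, MvPolynomial.aeval c (F i) = 0) →
      (Matrix.of fun i j => dv (F i) c fun o => o.elim 0 (v j)).det = 0)
    (h2 : ∃ X : Option J → ℂ, X none ≠ 0 ∧ ∀ F : MvPolynomial (Option J) k,
      MvPolynomial.aeval c F = 0 → dv F c X = 0) :
    ∃ B : Finset J, Fintype.card J ≤ B.card + q ∧
      ∀ P : MvPolynomial (Option B) k, P.totalDegree ≤ D →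
        MvPolynomial.aeval (fun o : Option B => o.elim (c none) fun v => c (some v.1)) P = 0 →
          P = 0 := by
  classical
  obtain ⟨X, hX, hXF⟩ := h2
  let I : Type := {F : MvPolynomial (Option J) k // F.totalDegree ≤ D ∧
    MvPolynomial.aeval c F = 0}
  let S : Submodule ℂ (J → ℂ) := ⨅ F : I, LinearMap.ker (fj c F.1)
  have hS : ∀ v, v ∈ S ↔ ∀ F : I, fj c F.1 v = 0 := by
    intro v
    simp only [S, Submodule.mem_iInf, LinearMap.mem_ker]
  have hr : Fintype.card J ≤ Module.finrank ℂ S + q := by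
    have := rank_le (fun F : I => fj c F.1) S hS q (by
      intro e v
      exact h1 (fun i => (e i).1) v (fun i => (e i).2.1) fun i => (e i).2.2)
    rwa [Module.finrank_fintype_fun_eq_card] at this
  -- the coordinates
  obtain ⟨B, hB, hli⟩ := exists_basis (V := S)
    (fun j : J => (LinearMap.proj j : (J → ℂ) →ₗ[ℂ] ℂ).comp S.subtype) (by
    intro v hv
    apply Subtype.ext
    funext j
    exact hv j)
  refine ⟨B, by omega, ?_⟩
  intro P hP hP0
  let x : Option J → (S × ℂ) →ₗ[ℂ] ℂ := fun o =>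
    (o.elim 0 fun j => ((LinearMap.proj j : (J → ℂ) →ₗ[ℂ] ℂ).comp S.subtype).comp
      (LinearMap.fst ℂ S ℂ)) + X o • LinearMap.snd ℂ S ℂ
  have hx : ∀ o (v : S) (s : ℂ), x o (v, s) = o.elim 0 (v : J → ℂ) + s * X o := by
    intro o v s
    cases o with
    | none =>
      change (0 : (S × ℂ) →ₗ[ℂ] ℂ) (v, s) + X none • s = 0 + s * X none
      rw [LinearMap.zero_apply, smul_eq_mul, mul_comm]
    | some j =>
      change (v : J → ℂ) j + X (some j) • s = (v : J → ℂ) j + s * X (some j)
      rw [smul_eq_mul, mul_comm]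
  let e : Option B → (Finset.insertNone B : Finset (Option J)) := fun o =>
    ⟨o.map Subtype.val, by
      cases o with
      | none => simp
      | some j => simp⟩
  have he : Function.Bijective e := by
    constructor
    · intro o o' h
      have h3 := congrArg Subtype.val h
      exact Option.map_injective Subtype.val_injective h3
    · rintro ⟨o, ho⟩
      cases o with
      | none => exact ⟨none, rfl⟩
      | some j => exact ⟨some ⟨j, by simpa using ho⟩, rfl⟩
  have hli' : LinearIndependent ℂ fun o : Option B => x (o.map Subtype.val) := by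
    rw [Fintype.linearIndependent_iff]
    intro g hg
    have h3 : ∀ (v : S) (s : ℂ), ∑ o : Option B, g o * x (o.map Subtype.val) (v, s) = 0 := by
      intro v s
      have := congrArg (fun f : (S × ℂ) →ₗ[ℂ] ℂ => f (v, s)) hg
      simpa using this
    have h4 : ∀ j : B, g (some j) = 0 := by
      refine Fintype.linearIndependent_iff.1 hli (fun j => g (some j)) ?_
      ext v
      have h5 := h3 v 0
      rw [Fintype.sum_option] at h5
      simp only [Option.map_none, Option.map_some, hx, Option.elim_none, Option.elim_some,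
        zero_mul, add_zero, mul_zero, zero_add] at h5
      rw [LinearMap.sum_apply, LinearMap.zero_apply, ← h5]
      rfl
    intro o
    cases o with
    | some j => exact h4 j
    | none =>
      have h5 := h3 0 1
      rw [Fintype.sum_option] at h5
      simp only [h4, zero_mul, Finset.sum_const_zero, add_zero, Option.map_none, hx,
        Option.elim_none, zero_add, one_mul] at h5
      exact (mul_eq_zero.1 h5).resolve_right hX
  have hli2 : LinearIndependent ℂ fun i : (Finset.insertNone B : Finset (Option J)) => x i.1 := by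
    obtain ⟨g, hg1, hg2⟩ := Function.bijective_iff_has_inverse.1 he
    have h3 := hli'.comp g hg2.injective
    have h4 : (fun i : (Finset.insertNone B : Finset (Option J)) => x i.1) =
        (fun o : Option B => x (o.map Subtype.val)) ∘ g := by
      funext i
      have h5 : (e (g i)).1 = i.1 := by rw [hg2 i]
      exact congrArg x h5.symm
    rw [h4]
    exact h3
  have key := indep_of c x D ?_ (Finset.insertNone B) hli2 (MvPolynomial.rename e P)
    ((MvPolynomial.totalDegree_rename_le _ _).trans hP) ?_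
  · exact MvPolynomial.rename_injective e he.injective (by rw [key, map_zero])
  · intro F hF hF0 ⟨v, s⟩
    have h3 : dv F c (fun o => x o (v, s)) = fj c F v.1 + s * dv F c X := by
      rw [fj_apply, ← dv_smul_right, ← dv_add_right]
      congr 1
      funext o
      exact hx o v s
    rw [h3, hXF F hF0, mul_zero, add_zero]
    exact (hS v.1).1 v.2 ⟨F, hF, hF0⟩
  · rw [MvPolynomial.aeval_rename, ← hP0]
    congr 1
    congr 1
    funext o
    cases o with
    | none => rfl
    | some j => rfl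

end

end Pool.Agent.Lib.MP_47914d_nt.BE
end

section
/-!
# The rank of the relations between the `3 n + 1` numbers
-/
set_option autoImplicit false

namespace Pool.Agent.Lib.MP_47914d_nt.BE

open Matrix TrivSqZeroExt
open Pool.Agent.Lib.MPf11a48.CG Pool.Agent.Lib.MPf11a48.CG.MainJM
open Pool.Agent.Lib.MPf11a48.GL2 (lie)
open Pool.Agent.Lib.MP_47914d_nt.BD Pool.Agent.Lib.MP_47914d_nt.BD.HOM2M

variable {n : ℕ} {K : IntermediateField ℚ ℂ}

/-- the factor -/
noncomputable def uu (A : Fin n → Matrix (Fin 2) (Fin 2) ℤ) (M : Fin n → Matrix (Fin 2) (Fin 2) ℂ)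
    (D : ℕ) : ℂ := ∏ i, (lc (A i) (M i) 0 ^ D * tau ^ D * (tau ^ 2) ^ D)

theorem dir {D : ℕ} (A : Fin n → Matrix (Fin 2) (Fin 2) ℤ) (t l : Fin n → ℚ) (i0 : Fin n)
    (M : Fin n → Matrix (Fin 2) (Fin 2) ℂ) (w : Fin n → Fin 3 → ℂ)
    (hA : ∀ i, (A i).det = 1) (hM : ∀ i, (M i).det = tau) (ht : ∀ i, t i ≠ 0)
    (hw : ∀ i, lc (A i) (M i) 0 ≠ 0 ∧ w i 0 * lc (A i) (M i) 0 = lc (A i) (M i) 2 ∧
      w i 1 * tau = -(t i * lc (A i) (M i) 0 ^ 2) ∧
      w i 2 * tau ^ 2 = t i * (l i * lc (A i) (M i) 0 ^ 4 -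
        2 * lc (A i) (M i) 0 ^ 3 * lc (A i) (M i) 1)) (v : Fin n × Fin 3 → ℂ) :
    ∃ Z : Fin n → Matrix (Fin 2) (Fin 2) ℂ, (∀ i, Z i ∈ lie (SL : Set (GL (Fin 2) ℂ))) ∧
      ∀ P : MvPolynomial (Option (Fin n × Fin 3)) K, P.totalDegree ≤ D →
        MvPolynomial.aeval (fun o : Option (Fin n × Fin 3) => o.elim tau fun v => w v.1 v.2) P = 0 →
        MvPolynomial.aeval (fun p : Fin n × Fin 2 × Fin 2 => M p.1 p.2.1 p.2.2)
          (QQ P A t l D i0) = 0 ∧
        dv (QQ P A t l D i0) (fun p : Fin n × Fin 2 × Fin 2 => M p.1 p.2.1 p.2.2)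
          (fun p => (Z p.1 * M p.1) p.2.1 p.2.2) = uu A M D *
          dv P (fun o : Option (Fin n × Fin 3) => o.elim tau fun v => w v.1 v.2)
            (fun o => o.elim 0 v) := by
  choose Z hZt hZd hZ0 hZ1 hZ2 using fun i => exists_dir (A i) (hA i) (t i) (l i) (ht i) (M i)
    (hM i) (w i) (fun j => v (i, j)) (hw i).1
  refine ⟨Z, fun i => mem_lie (hZt i), fun P hP hP0 => ?_⟩
  have hK : ∀ x : K, algebraMap K (TrivSqZeroExt ℂ ℂ) x = inl (x : ℂ) := fun x => rfl
  have hq : ∀ x : ℚ, ((x : K) : ℂ) = (x : ℂ) := coe_rat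
  have h2 : (2 : TrivSqZeroExt ℂ ℂ) = inl 2 := by
    rw [← map_ofNat (inlHom ℂ ℂ) 2]
    rfl
  let N : Fin n → Matrix (Fin 2) (Fin 2) (TrivSqZeroExt ℂ ℂ) := fun i =>
    Matrix.of fun a b => inl (M i a b) + inr ((Z i * M i) a b)
  have hlc : ∀ i j, lc (A i) (N i) j = inl (lc (A i) (M i) j) + inr (lc (A i) (Z i * M i) j) :=
    fun i j => lc_dual (A i) (M i) (Z i * M i) j
  have key := ev_QQ (S := TrivSqZeroExt ℂ ℂ) hP A t l i0 N
    (fun i j => inl (w i j) + inr (v (i, j))) (inl tau) ?_ ?_ ?_ ?_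
  · have e1 : ev K N (QQ P A t l D i0) =
        inl (MvPolynomial.aeval (fun p : Fin n × Fin 2 × Fin 2 => M p.1 p.2.1 p.2.2)
          (QQ P A t l D i0)) +
        inr (dv (QQ P A t l D i0) (fun p : Fin n × Fin 2 × Fin 2 => M p.1 p.2.1 p.2.2)
          (fun p => (Z p.1 * M p.1) p.2.1 p.2.2)) := by
      rw [← aeval_dual]
      rfl
    have e2 : (fun o : Option (Fin n × Fin 3) => o.elim (inl tau : TrivSqZeroExt ℂ ℂ)
        fun u => inl (w u.1 u.2) + inr (v (u.1, u.2))) =
        fun o : Option (Fin n × Fin 3) =>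
          inl (o.elim tau fun v => w v.1 v.2) + inr (o.elim 0 v) := by
      funext o
      cases o with
      | none => simp
      | some o => rfl
    rw [e1, e2, aeval_dual, hP0, inl_zero, zero_add] at key
    have h3 := congrArg fst key
    have h4 := congrArg snd key
    refine ⟨?_, ?_⟩
    · simpa using h3
    · have h5 : fst (∏ i, (lc (A i) (N i) 0 ^ D * (inl tau : TrivSqZeroExt ℂ ℂ) ^ D *
          ((inl tau : TrivSqZeroExt ℂ ℂ) ^ 2) ^ D)) = uu A M D := by
        have h6 : ∀ x : TrivSqZeroExt ℂ ℂ, fst x = fstHom ℂ ℂ ℂ x := fun _ => rfl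
        rw [h6, map_prod]
        unfold uu
        refine Finset.prod_congr rfl fun i _ => ?_
        rw [hlc]
        simp only [map_mul, map_pow, ← h6]
        simp
      rw [snd_mul, h5] at h4
      simpa using h4
  · intro i
    have h5 := hM i
    rw [Matrix.det_fin_two] at h5
    rw [Matrix.det_fin_two]
    simp only [N, Matrix.of_apply]
    ext
    · simpa using h5
    · have := hZd i
      simp only [snd_sub, snd_mul, snd_add, snd_inl, snd_inr, fst_add, fst_inl, fst_inr, add_zero,
        zero_add, smul_eq_mul, MulOpposite.smul_eq_mul_unop, MulOpposite.unop_op]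
      linear_combination this
  · intro i
    rw [hlc, hlc]
    ext
    · simpa using (hw i).2.1
    · have := hZ0 i
      simp only [snd_mul, snd_add, snd_inl, snd_inr, fst_add, fst_inl, fst_inr, add_zero,
        zero_add, smul_eq_mul, MulOpposite.smul_eq_mul_unop, MulOpposite.unop_op]
      linear_combination this
  · intro i
    rw [hlc, hK, hq]
    ext
    · simpa using (hw i).2.2.1
    · have := hZ1 i
      simp only [snd_neg, snd_mul, snd_add, snd_inl, snd_inr, fst_add, fst_inl, fst_inr, add_zero,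
        zero_add, smul_eq_mul, MulOpposite.smul_eq_mul_unop, MulOpposite.unop_op, pow_two,
        mul_zero, fst_mul]
      linear_combination this
  · intro i
    rw [hlc, hlc, hK, hq, hK, hq, h2]
    ext
    · have := (hw i).2.2.2
      simp only [fst_mul, fst_sub, fst_pow, fst_add, fst_inl, fst_inr, add_zero]
      linear_combination this
    · have := hZ2 i
      simp only [snd_sub, snd_mul, snd_add, snd_inl, snd_inr, fst_add, fst_inl, fst_inr, add_zero,
        zero_add, smul_eq_mul, MulOpposite.smul_eq_mul_unop, MulOpposite.unop_op, pow_succ,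
        pow_zero, one_mul, mul_zero, fst_mul, fst_sub]
      linear_combination this

theorem hom3 {n : ℕ} (hn : 0 < n) (D q : ℕ) {K : IntermediateField ℚ ℂ}
    (A : Fin n → Matrix (Fin 2) (Fin 2) ℤ) (t l : Fin n → ℚ)
    (M : Fin n → Matrix (Fin 2) (Fin 2) ℂ) (w : Fin n → Fin 3 → ℂ)
    (hA : ∀ i, (A i).det = 1) (hM : ∀ i, (M i).det = tau) (ht : ∀ i, t i ≠ 0)
    (hw : ∀ i, lc (A i) (M i) 0 ≠ 0 ∧ w i 0 * lc (A i) (M i) 0 = lc (A i) (M i) 2 ∧
      w i 1 * tau = -(t i * lc (A i) (M i) 0 ^ 2) ∧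
      w i 2 * tau ^ 2 = t i * (l i * lc (A i) (M i) 0 ^ 4 -
        2 * lc (A i) (M i) 0 ^ 3 * lc (A i) (M i) 1))
    (hdet : ∀ (F : Fin (q + 1) → MvPolynomial (Fin n × Fin 2 × Fin 2) K)
      (Z : Fin (q + 1) → Fin n → Matrix (Fin 2) (Fin 2) ℂ), (∀ i, (F i).totalDegree ≤ 9 * n * D) →
      (∀ j a, Z j a ∈ lie (SL : Set (GL (Fin 2) ℂ))) →
      (∀ i, MvPolynomial.aeval (fun p : Fin n × Fin 2 × Fin 2 => M p.1 p.2.1 p.2.2) (F i) = 0) →
      (Matrix.of fun i j => dv (F i) (fun p : Fin n × Fin 2 × Fin 2 => M p.1 p.2.1 p.2.2)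
        (fun p => (Z j p.1 * M p.1) p.2.1 p.2.2)).det = 0)
    (hX : ∃ X : Option (Fin n × Fin 3) → ℂ, X none ≠ 0 ∧
      ∀ F : MvPolynomial (Option (Fin n × Fin 3)) K,
      MvPolynomial.aeval (fun o : Option (Fin n × Fin 3) => o.elim tau fun v => w v.1 v.2) F = 0 →
      dv F (fun o : Option (Fin n × Fin 3) => o.elim tau fun v => w v.1 v.2) X = 0) :
    ∃ B : Finset (Fin n × Fin 3), 3 * n ≤ B.card + q ∧
      ∀ P : MvPolynomial (Option B) K, P.totalDegree ≤ D →
        MvPolynomial.aeval (fun o : Option B => o.elim tau fun v => w v.1.1 v.1.2) P = 0 →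
          P = 0 := by
  classical
  have h1 := exists_B (k := K)
    (fun o : Option (Fin n × Fin 3) => o.elim tau fun v => w v.1 v.2) D q (by
    intro F v hF hF0
    choose Z hZ hZP using fun j => dir (K := K) (D := D) A t l ⟨0, hn⟩ M w hA hM ht hw (v j)
    have h2 := hdet (fun i => QQ (F i) A t l D ⟨0, hn⟩) Z (fun i => deg_QQ (hF i) A t l _) hZ
      (fun i => ((hZP 0 (F i) (hF i) (hF0 i)).1))
    have h3 : (Matrix.of fun i j => dv (QQ (F i) A t l D ⟨0, hn⟩)
        (fun p : Fin n × Fin 2 × Fin 2 => M p.1 p.2.1 p.2.2)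
        (fun p => (Z j p.1 * M p.1) p.2.1 p.2.2)) = uu A M D • Matrix.of fun i j =>
        dv (F i) (fun o : Option (Fin n × Fin 3) => o.elim tau fun v => w v.1 v.2)
          fun o => o.elim 0 (v j) := by
      ext i j
      rw [Matrix.of_apply, (hZP j (F i) (hF i) (hF0 i)).2, Matrix.smul_apply, Matrix.of_apply,
        smul_eq_mul]
    rw [h3, Matrix.det_smul] at h2
    refine (mul_eq_zero.1 h2).resolve_left (pow_ne_zero _ ?_)
    unfold uu
    refine Finset.prod_ne_zero_iff.2 fun i _ => ?_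
    exact mul_ne_zero (mul_ne_zero (pow_ne_zero _ (hw i).1) (pow_ne_zero _ tau_ne))
      (pow_ne_zero _ (pow_ne_zero _ tau_ne))) hX
  obtain ⟨B, hB, hBP⟩ := h1
  refine ⟨B, ?_, hBP⟩
  rw [Fintype.card_prod, Fintype.card_fin, Fintype.card_fin] at hB
  omega

end Pool.Agent.Lib.MP_47914d_nt.BE
end
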