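import Pool.Agent.Lib.MP_f11a48_ag.BD.Thm
import Pool.Agent.Lib.MP_47914d_nt.BD.All
import Pool.Agent.Lib.MP_47914d_nt.BE.Dir

section
/-!
# The rank of the relations of bounded degree, for all sums of fibres of a family
-/
set_option autoImplicit false
set_option linter.unusedSectionVars false

namespace Pool.Agent.Lib.MP_47914d_nt.BE

open Polynomial Matrix
open Pool.Agent.Lib.MPf11a48 Pool.Agent.Lib.MPf11a48.BD Pool.Agent.Lib.MPf11a48.GF
open Pool.Agent.Lib.MPf11a48.CG Pool.Agent.Lib.MPf11a48.CG.MainJM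
open Pool.Agent.Lib.MPf11a48.Tors
open Pool.Agent.Lib.MPf11a48.CM hiding OmegaM
open Pool.Agent.Lib.MPf11a48.GL2 (lie van en Geo)
open Pool.Agent.Lib.MPf11a48.GL2T
open Pool.Agent.Lib.MPf11a48.K3 (cx)
open Pool.Agent.Lib.MPf11a48.K3.KCurM (gl)

variable {ι : Type} [Fintype ι] [DecidableEq ι]

theorem dv_rename {I J k : Type} [Fintype I] [Fintype J] [DecidableEq I] [DecidableEq J]
    [CommRing k] [Algebra k ℂ] (f : I → J) (F : MvPolynomial I k) (y v : J → ℂ) :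
    dv (MvPolynomial.rename f F) y v = dv F (fun i => y (f i)) fun i => v (f i) := by
  have h1 : MvPolynomial.rename f F = MvPolynomial.bind₁ (fun i => MvPolynomial.X (f i)) F := by
    rw [← MvPolynomial.aeval_X_left_apply (MvPolynomial.rename f F), MvPolynomial.aeval_rename]
    rfl
  rw [h1, dv_bind]
  congr 1
  · funext i
    rw [MvPolynomial.aeval_X]
  · funext i
    rw [dv_X]

/-- the determinants of the derivatives of the relations of degree `≤ D` -/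
theorem detK {G G₀ : Subgroup (GL ι ℂ)} {N : Matrix ι ι ℚ}
    {C₀ : GL ι ℂ} {Pf : ℂ → Matrix ι ι ℂ} (δ D s k : ℕ)
    (hG₀ : ClosedOver ⊥ (G₀ : Set (GL ι ℂ))) (hGG : ∀ g, g ∈ G₀ ↔ C₀ * g * C₀⁻¹ ∈ G)
    (hN : IsNilpotent N) (hN₀ : cx N ∈ lie (G₀ : Set (GL ι ℂ)))
    (hs : TrS C₀.1 N s) (hA : Arik k G₀ N Pf) :
    ∃ C : ℕ, ∀ a b : ℤ, a ≠ 0 → (C : ℤ) * |a| ^ C ≤ b →
      ∃ ε : ℕ → ℕ, ∑ m ∈ Finset.range k, ε m ≤ s ∧
        ∀ (r : ℕ) (m : Fin r → ℕ), Function.Injective m → (∀ i, m i < k) →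
          ∀ L : IntermediateField ℚ ℂ, FiniteDimensional ℚ L → Module.finrank ℚ L ≤ δ →
            ∀ (F : Fin ((∑ i, ε (m i)) + 1) → MvPolynomial (Fin r × ι × ι) L)
              (Z : Fin ((∑ i, ε (m i)) + 1) → Fin r → Matrix ι ι ℂ),
              (∀ i, (F i).totalDegree ≤ D) → (∀ j a, Z j a ∈ lie (G : Set (GL ι ℂ))) →
              (∀ i, MvPolynomial.aeval (fun p : Fin r × ι × ι =>
                (C₀.1 * Pf ((a : ℂ) / (b + m p.1 * a))) p.2.1 p.2.2) (F i) = 0) →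
              (Matrix.of fun i j => dv (F i) (fun p : Fin r × ι × ι =>
                  (C₀.1 * Pf ((a : ℂ) / (b + m p.1 * a))) p.2.1 p.2.2)
                (fun p => (Z j p.1 * (C₀.1 * Pf ((a : ℂ) / (b + m p.1 * a)))) p.2.1 p.2.2)).det =
                0 := by
  classical
  have hG₀T : IsTorsor (⊥ : IntermediateField ℚ ℂ) (G₀ : Set (GL ι ℂ)) :=
    ⟨hG₀, ⟨1, G₀.one_mem⟩, fun a ha b hb d hd => G₀.mul_mem (G₀.mul_mem ha (G₀.inv_mem hb)) hd⟩
  obtain ⟨n, hn⟩ := ultR specDex (σ := Fin k) C₀ N G G₀ D s hs hN (SubM.geo hG₀T)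
  let I : Type := {ε : Fin k → Fin (s + 1) // ∑ i, (ε i : ℕ) ≤ s}
  have : Nonempty I := ⟨⟨fun _ => 0, by simp⟩⟩
  set δ₁ : ℕ := (max δ 0) ^ (Fintype.card I * (Fintype.card Empty + 1)) with hδ₁
  obtain ⟨C, δ', hC⟩ := hA n (δ₁ + 1)
  refine ⟨C, fun a b ha hb => ?_⟩
  by_contra hcon
  -- the exceptional sums
  have hbad : ∀ ε : I, ∃ L : IntermediateField ℚ ℂ, FiniteDimensional ℚ L ∧
      Module.finrank ℚ L ≤ δ ∧ ∃ (r : ℕ) (m : Fin r → Fin k)
        (F : Fin ((∑ i, (ε.1 (m i) : ℕ)) + 1) → MvPolynomial (Fin r × ι × ι) L)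
        (Z : Fin ((∑ i, (ε.1 (m i) : ℕ)) + 1) → Fin r → Matrix ι ι ℂ),
        Function.Injective m ∧ (∀ i, (F i).totalDegree ≤ D) ∧
        (∀ j a, Z j a ∈ lie (G : Set (GL ι ℂ))) ∧
        (∀ i, MvPolynomial.aeval (fun p : Fin r × ι × ι =>
          (C₀.1 * Pf ((a : ℂ) / (b + (m p.1 : ℕ) * a))) p.2.1 p.2.2) (F i) = 0) ∧
        (Matrix.of fun i j => dv (F i) (fun p : Fin r × ι × ι =>
            (C₀.1 * Pf ((a : ℂ) / (b + (m p.1 : ℕ) * a))) p.2.1 p.2.2)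
          (fun p => (Z j p.1 * (C₀.1 * Pf ((a : ℂ) / (b + (m p.1 : ℕ) * a)))) p.2.1 p.2.2)).det ≠
          0 := by
    intro ε
    by_contra hno
    apply hcon
    refine ⟨fun m => if h : m < k then (ε.1 ⟨m, h⟩ : ℕ) else 0, ?_, ?_⟩
    · rw [Finset.sum_range]
      refine le_trans (Finset.sum_le_sum fun i _ => ?_) ε.2
      rw [dif_pos i.2]
    · intro r m hm hmk L hL hLδ
      let m' : Fin r → Fin k := fun i => ⟨m i, hmk i⟩
      have h2 : ∑ i, (if h : m i < k then (ε.1 ⟨m i, h⟩ : ℕ) else 0) = ∑ i, (ε.1 (m' i) : ℕ) :=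
        Finset.sum_congr rfl fun i _ => dif_pos (hmk i)
      simp only
      rw [h2]
      intro F Z hF hZ hF0
      by_contra h1
      exact hno ⟨L, hL, hLδ, r, m', F, Z, fun i j h => hm (congrArg Fin.val h), hF, hZ, hF0, h1⟩
  choose K hKf hKδ hrest using hbad
  obtain ⟨L₀, hKL₀, hL₀f, -, hL₀d⟩ := exists_field' specDeg I Empty 0 δ K hKf hKδ
    (fun q => q.elim) (fun q => q.elim)
  obtain ⟨L, hL₀L, hLf, -, t, y, hPf, hyτ, hrel⟩ := hC a b ha hb L₀ hL₀f
    (hL₀d.trans (Nat.le_add_right _ _))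
  have hrel' := hrel L le_rfl hLf (Nat.le_mul_of_pos_right _ (Nat.succ_pos _))
  have hGG₁ := MainKM.conj_C hG₀ hGG hN₀ t
  -- the defects
  obtain ⟨ε, hε, hεd⟩ := exists_eps (lie (G : Set (GL ι ℂ)))
    (fun x => (C₀ * gl (cx N) t * y x).1) D s
    (fun F Z h1 h2 h3 => hn t L y hGG₁ hrel' F Z h1 h2 h3)
  have hεs : ∀ i : Fin k, ε i < s + 1 := fun i => Nat.lt_succ_of_le
    ((Finset.single_le_sum (f := ε) (fun _ _ => Nat.zero_le _) (Finset.mem_range.2 i.2)).trans hε)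
  let ε' : I := ⟨fun i => ⟨ε i, hεs i⟩, by
    rw [← Finset.sum_range]
    exact hε⟩
  obtain ⟨r, m, F, Z, hm, hF, hZ, hF0, hno⟩ := hrest ε'
  apply hno
  have hle : K ε' ≤ L := (hKL₀ ε').trans hL₀L
  let ρ : Fin r × ι × ι → Fin k × ι × ι := fun p => (m p.1, p.2)
  let W : Fin ((∑ i, (ε'.1 (m i) : ℕ)) + 1) → Fin k → Matrix ι ι ℂ :=
    fun j => Function.extend m (Z j) 0
  have hWm : ∀ j i, W j (m i) = Z j i := fun j i => hm.extend_apply (Z j) 0 i
  have hx : ∀ i : Fin r, C₀.1 * Pf ((a : ℂ) / (b + (m i : ℕ) * a)) =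
      (C₀ * gl (cx N) t * y (m i)).1 := by
    intro i
    rw [hPf (m i), ← Matrix.mul_assoc]
    rfl
  have key := hεd r m hm
    (fun i => MvPolynomial.rename ρ
      (MvPolynomial.map (IntermediateField.inclusion hle : K ε' →+* L) (F i))) W
    (fun i => ?_) (fun j x => ?_) (fun i => ?_) (fun i p hp => ?_)
  · rw [← key]
    congr 2
    ext i j
    rw [dv_rename, dv_incl]
    simp only [ρ, hWm, hx]
  · refine (MvPolynomial.totalDegree_rename_le _ _).trans ?_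
    exact le_trans (Finset.sup_mono (MvPolynomial.support_map_subset _ _)) (hF i)
  · by_cases hx' : x ∈ Set.range m
    · obtain ⟨i, rfl⟩ := hx'
      rw [hWm]
      exact hZ j i
    · have h1 : W j x = 0 := Function.extend_apply' _ _ _ fun ⟨i, hi⟩ => hx' ⟨i, hi⟩
      rw [h1]
      exact Submodule.zero_mem _
  · rw [MvPolynomial.aeval_rename, aeval_incl, ← hF0 i]
    simp only [hx]
    rfl
  · obtain ⟨q, -, hq⟩ := Finset.mem_image.1 (MvPolynomial.vars_rename _ _ hp)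
    exact ⟨q.1, congrArg Prod.fst hq⟩

end Pool.Agent.Lib.MP_47914d_nt.BE
end

section
/-!
# The modular Schanuel conjecture with derivatives in bounded degree, for all tuples
-/
set_option autoImplicit false

namespace Pool.Agent.Lib.MP_47914d_nt.BE

open Polynomial Matrix Filter Topology
open scoped PowerSeries
open Pool.Agent.Lib.MPf11a48.CM (Qbar)
open Pool.Agent.Lib.MPf11a48.CF (vm)
open Pool.Agent.Lib.MPf11a48.CG (FamT IsSS TrS dv Arik SpecRelt)
open Pool.Agent.Lib.MPf11a48.GL2 (lie)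
open Pool.Agent.Lib.MPf11a48.K3 (cx)
open Pool.Agent.Lib.MP_47914d_nt.BD Pool.Agent.Lib.MP_47914d_nt.BD.FINM
  Pool.Agent.Lib.MP_47914d_nt.BD.FIN2M Pool.Agent.Lib.MP_47914d_nt.BD.HOM2M

/-- The theorem: the modular Schanuel conjecture with derivatives, in bounded degree, for all tuples of
points with `j`-invariants `b / a + m i`, `m i < k`, near infinity, up to a defect `≤ 2` for the whole
window. -/
def Statement3 : Prop :=
  ∀ D δ k : ℕ, ∃ C : ℕ, ∀ a b : ℤ, a ≠ 0 → (C : ℤ) * |a| ^ C ≤ b →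
    ∃ e : ℕ → ℕ, ∑ m ∈ Finset.range k, e m ≤ 2 ∧ ∀ (n : ℕ) (m : Fin n → ℕ) (z : Fin n → ℂ),
      Function.Injective m → (∀ i, m i < k) →
      (∀ i, 0 < (z i).im ∧ Jc (z i) = (b : ℂ) / a + m i) →
      ∀ K : IntermediateField ℚ ℂ, FiniteDimensional ℚ K → Module.finrank ℚ K ≤ δ →
        ∃ B : Finset (Fin n × Fin 3), 3 * n ≤ B.card + ∑ i, e (m i) ∧
          ∀ P : MvPolynomial (Option B) K, P.totalDegree ≤ D →
            MvPolynomial.aeval (fun o : Option B => o.elim (2 * Real.pi * Complex.I) fun v =>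
              (![z v.1.1, deriv Jc (z v.1.1), deriv (deriv Jc) (z v.1.1)] : Fin 3 → ℂ) v.1.2)
              P = 0 → P = 0

/-- the arithmetic of the family -/
theorem arik (k : ℕ) : Arik k SL Ns fun z => NormedSpace.exp (Complex.log z • cx Ns) * vm Ys z := by
  have hSl := specSLM
  have hd : ps.det ≠ 0 := by
    rw [ps, Matrix.det_fin_two_of]
    norm_num
  have hY : Ys.det ≠ 0 := by
    rw [sys_all.det]
    exact one_ne_zero
  have hNψ : Nsᵀ * ps + ps * Ns = 0 := by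
    ext i j
    fin_cases i <;> fin_cases j <;> simp [Ns, ps, Matrix.mul_apply, Fin.sum_univ_two]
  exact Pool.Agent.Lib.MPf11a48.CG.MainKM.ari Pool.Agent.Lib.MPf11a48.CG.aRelt
    Pool.Agent.Lib.MPf11a48.CG.specNormt Pool.Agent.Lib.MPf11a48.CG.aVal
    Pool.Agent.Lib.MPf11a48.CG.specTor Pool.Agent.Lib.MPf11a48.CG.specDeg hSl.ss hSl.ss.closed
    hSl.conj (fam sys_all hSl mon_all) Ns_nil hSl.lie hd hNψ hY k

/-- a direction along which the derivatives of all relations vanish -/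
theorem exists_X {J : Type} [Fintype J] (K : IntermediateField ℚ ℂ) (hK : FiniteDimensional ℚ K)
    (c : Option J → ℂ) (hc : c none = tau) :
    ∃ X : Option J → ℂ, X none ≠ 0 ∧ ∀ F : MvPolynomial (Option J) K,
      MvPolynomial.aeval c F = 0 → dv F c X = 0 := by
  have hKQ : K ≤ Qbar := Pool.Agent.Lib.MPf11a48.CF.MainM.le_Qbar K
  have hnot : tau ∉ Qbar := by
    intro h
    have h1 : (2 * Real.pi * Complex.I : ℂ) ^ (1 : ℤ) ∈ Qbar := by
      rw [zpow_one]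
      exact h
    exact one_ne_zero (Pool.Agent.Lib.MPf11a48.CM.two_pi_I_zpow h1)
  obtain ⟨δ, hδ⟩ := Pool.Agent.Lib.MPf11a48.GL2.exists_derivation hnot
  refine ⟨fun o => δ (c o), ?_, fun F hF => ?_⟩
  · show δ (c none) ≠ 0
    rw [hc]
    exact hδ
  rw [← Pool.Agent.Lib.MPf11a48.CG.ZarM.chain hKQ δ F c, hF, map_zero]

theorem statement3 : Statement3 := by
  intro D δ k
  have hSl := specSLM
  obtain ⟨ρ₁, hN⟩ := num_all
  obtain ⟨ρ₂, hρ₂, hL⟩ := lnk_all
  obtain ⟨ρ₃, hρ₃, hDj⟩ := dj_all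
  have hInj : SpecInjFull := specInjFull specJ
  have hTrj : SpecTrj := specTRJ specJ
  obtain ⟨C₁, hC₁⟩ := detK (C₀ := C0s) δ (9 * k * D) 2 k hSl.ss.closed hSl.conj Ns_nil hSl.lie
    hSl.trS (arik k)
  set ρ := min ρ₁ (min ρ₂ ρ₃) with hρ
  have hρ0 : 0 < ρ := lt_min hN.pos (lt_min hρ₂ hρ₃)
  have hρ1 : ρ ≤ ρ₁ := min_le_left _ _
  have hρ2 : ρ ≤ ρ₂ := (min_le_right _ _).trans (min_le_left _ _)
  have hρ3 : ρ ≤ ρ₃ := (min_le_right _ _).trans (min_le_right _ _)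
  obtain ⟨C₂, hC₂⟩ := exists_nat_ge ((k : ℝ) + 1 + ρ⁻¹)
  refine ⟨C₁ + C₂ + 1, fun a b ha hb => ?_⟩
  have ha1 : (1 : ℤ) ≤ |a| := Int.one_le_abs ha
  have hmono : ∀ C : ℕ, C ≤ C₁ + C₂ + 1 → (C : ℤ) * |a| ^ C ≤ b := by
    intro C hC
    refine le_trans ?_ hb
    have h1 : |a| ^ C ≤ |a| ^ (C₁ + C₂ + 1) := pow_le_pow_right₀ ha1 hC
    have h2 : (C : ℤ) ≤ ((C₁ + C₂ + 1 : ℕ) : ℤ) := by exact_mod_cast hC
    exact mul_le_mul h2 h1 (by positivity) (by positivity)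
  have hb2 : (C₂ : ℤ) * |a| ≤ b := by
    refine le_trans ?_ hb
    have h1 : |a| ≤ |a| ^ (C₁ + C₂ + 1) := le_self_pow₀ ha1 (by omega)
    have h2 : (C₂ : ℤ) ≤ ((C₁ + C₂ + 1 : ℕ) : ℤ) := by push_cast; omega
    exact mul_le_mul h2 h1 (by positivity) (by positivity)
  obtain ⟨e, he, hgood⟩ := hC₁ a b ha (hmono C₁ (by omega))
  refine ⟨e, he, fun n m z hm hmk hz K hK hδ => ?_⟩
  rcases Nat.eq_zero_or_pos n with hn | hn
  · subst hn
    refine ⟨∅, by simp, fun P hP hP0 => ?_⟩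
    exact zero_case K hK P _ hP0
  -- the points
  have hx : ∀ i, (b : ℂ) + m i * a ≠ 0 ∧ (a : ℂ) / (b + m i * a) ≠ 0 ∧
      ‖(a : ℂ) / (b + m i * a)‖ < ρ := fun i => small hρ0 hC₂ (hmk i) ha hb2
  set x : Fin n → ℂ := fun i => (a : ℂ) / (b + m i * a) with hxd
  have hPM := fun i => PM_eq hN ((hx i).2.2.trans_le hρ1)
  -- the points of the upper half plane
  have hrep : ∀ i, ∃ p q r s : ℤ, p * s - q * r = 1 ∧
      ((r : ℂ) * zx (x i) + s) * z i = p * zx (x i) + q := by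
    intro i
    obtain ⟨h1, h2, -⟩ := hL (x i) (hx i).2.1 ((hx i).2.2.trans_le hρ2)
    apply hInj (zx (x i)) (z i) h1 (hz i).1
    rw [h2, (hz i).2, hxd]
    have hac : (a : ℂ) ≠ 0 := by exact_mod_cast ha
    have := (hx i).1
    field_simp
  choose p q r s hdet1 hzz using hrep
  have hzim : ∀ i, 0 < (zx (x i)).im := fun i =>
    (hL (x i) (hx i).2.1 ((hx i).2.2.trans_le hρ2)).1
  have hden : ∀ i, (r i : ℂ) * zx (x i) + s i ≠ 0 := by
    intro i h
    have h1 := congrArg Complex.im h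
    have h2 : (r i : ℝ) * (zx (x i)).im = 0 := by simpa using h1
    have h3 : (r i : ℝ) = 0 := by
      rcases mul_eq_zero.1 h2 with h3 | h3
      · exact h3
      · exact absurd h3 (hzim i).ne'
    have h4 : r i = 0 := by exact_mod_cast h3
    rw [h4] at h
    have h5 : s i = 0 := by
      have h6 : (s i : ℂ) = 0 := by simpa using h
      exact_mod_cast h6
    have h7 := hdet1 i
    rw [h4, h5] at h7
    simp at h7
  -- the rational numbers
  set xq : Fin n → ℚ := fun i => (a : ℚ) / (b + m i * a) with hxq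
  have hxqx : ∀ i, ((xq i : ℚ) : ℂ) = x i := by
    intro i
    rw [hxq, hxd]
    push_cast
    rfl
  have hder := fun i => derivs hN ((hx i).2.2.trans_le hρ1) (hx i).2.1 (hzz i)
    (hDj (x i) (hx i).2.1 ((hx i).2.2.trans_le hρ3)).1
    (hDj (x i) (hx i).2.1 ((hx i).2.2.trans_le hρ3)).2
    (hTrj (p i) (q i) (r i) (s i) (zx (x i)) (z i) (hdet1 i) (hzim i) (hz i).1 (hzz i)).1
    (hTrj (p i) (q i) (r i) (s i) (zx (x i)) (z i) (hdet1 i) (hzim i) (hz i).1 (hzz i)).2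
  -- `n ≤ k`
  have hnk : n ≤ k := by
    have h1 : Function.Injective fun i : Fin n => (⟨m i, hmk i⟩ : Fin k) := by
      intro i j hij
      exact hm (by simpa using hij)
    simpa using Fintype.card_le_of_injective _ h1
  refine hom3 hn D (∑ i, e (m i)) (fun i => !![p i, q i; r i, s i]) (fun i => (xq i)⁻¹)
    (fun i => 1 + 864 * xq i / (1 - 1728 * xq i)) (fun i => PM (x i))
    (fun i => ![z i, deriv Jc (z i), deriv (deriv Jc) (z i)]) (fun i => ?_) (fun i => ?_)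
    (fun i => ?_) (fun i => ?_) ?_ (exists_X K hK _ rfl)
  · rw [Matrix.det_fin_two_of]
    exact hdet1 i
  · exact (hPM i).2.2.2
  · have h1 : ((xq i : ℚ) : ℂ) ≠ 0 := by
      rw [hxqx]
      exact (hx i).2.1
    exact inv_ne_zero (by exact_mod_cast h1)
  · have h1 : (((xq i)⁻¹ : ℚ) : ℂ) = (x i)⁻¹ := by
      rw [Rat.cast_inv, hxqx]
    have h2 : ((1 + 864 * xq i / (1 - 1728 * xq i) : ℚ) : ℂ) =
        1 + 864 * x i / (1 - 1728 * x i) := by
      rw [← hxqx]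
      push_cast
      rfl
    refine ⟨?_, (hder i).1, ?_, ?_⟩
    · show (r i : ℂ) * PM (x i) 1 0 + (s i : ℂ) * PM (x i) 0 0 ≠ 0
      rw [(hPM i).2.1, ← mul_assoc, ← add_mul]
      exact mul_ne_zero (hden i) (hPM i).2.2.1
    · show deriv Jc (z i) * (2 * Real.pi * Complex.I) = _
      rw [h1]
      exact (hder i).2.1
    · show deriv (deriv Jc) (z i) * (2 * Real.pi * Complex.I) ^ 2 = _
      rw [h1, h2]
      exact (hder i).2.2
  · intro F Z hF hZ hF0
    have hPMe : ∀ i : Fin n, C0s.1 * (NormedSpace.exp (Complex.log ((a : ℂ) / (b + m i * a)) •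
        cx Ns) * vm Ys ((a : ℂ) / (b + m i * a))) = PM (x i) := by
      intro i
      rw [← Matrix.mul_assoc]
      rfl
    have h1 := hgood n m hm hmk K hK hδ F Z
      (fun i => (hF i).trans (Nat.mul_le_mul_right D (Nat.mul_le_mul_left 9 hnk))) hZ (fun i => by
        simp only [hPMe]
        exact hF0 i)
    simp only [hPMe] at h1
    exact h1

end Pool.Agent.Lib.MP_47914d_nt.BE
end
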